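import Mathlib
import Pool.Agent.Lib.MP_cc17a8_ag.Gen.Main
import Pool.Agent.Lib.RegularUFD.Scheme

open AlgebraicGeometry CategoryTheory Pool.Agent.Lib.MP_cc17a8_ag

universe u

/-- Let `X` be a smooth projective variety over an algebraically closed field `k` of characteristic
zero such that every extremal ray of the closed cone of curves has a contraction of fibre type.
Then the nef cone of `X` is simplicial: there is a basis of `N¹(X)_ℝ` such that the nef cone is
the cone generated by the vectors of the basis. -/
theorem Pool.Agent.Results.MP_cc17a8_ag.NefSimplicial.result {k : Type u} [Field k] [CharZero k]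
    [IsAlgClosed k] {X : Scheme.{u}} [IsIntegral X] (f : X ⟶ Spec (.of k)) [IsProper f] [Smooth f]
    (hA : ∃ A : CartierDivisor X, A.IsAmple)
    (hc : ∀ R, IsExtremalRay f R → HasFibreContraction f R) :
    IsSimplicialCone (Nef f) := by
  obtain ⟨A, hA⟩ := hA
  refine Gen.main_theorem f A hA (fun x => Pool.Agent.Lib.RegularUFD.ufd_stalk X f x)
    fun R hR => ?_
  obtain ⟨Y, hY, g, φ, hg, ⟨H, hH⟩, hφ, hd⟩ := hc R hR
  exact ⟨⟨Y, hY, g, hg, φ, hφ.comp_eq, Gen.map_genericPoint_of_surjective hφ.surjective,
    hφ.isClosed_iff, H, hH, hd⟩⟩
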